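import Pool.Agent.helper38.TA.SpecA

set_option autoImplicit false

open Complex MeasureTheory Set
open scoped ComplexConjugate

namespace Pool.Agent.TA

open Pool.Agent.BA (Par GG kl kf vf fV Bw Den PP wt lam gpf rgz)
open Pool.Agent.ZT (fP Bn NN Cen GF hm Sqf cmf lamA muA prm Eta NwD Cof thC LaC LfC FEQ Prs)

private theorem EXA_g_zero {n : ℕ} {V : Type} [AddCommGroup V] [Module ℝ V] {g : ℕ → V → ℝ → ℂ}
    {C₁ : ℝ} (h : TSC n V g C₁) (j : ℕ) (x : ℝ) : g j 0 x = 0 := by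
  have h1 := h.smul j 0 0 x
  rw [zero_smul] at h1
  rw [h1]
  simp

private theorem EXA_GX_zero {n : ℕ} {V : Type} [AddCommGroup V] [Module ℝ V] {g : ℕ → V → ℝ → ℂ}
    {C₁ : ℝ} (h : TSC n V g C₁) (a : ℕ → ℂ) (x : ℝ) : GX g a 0 0 x = 0 := by
  simp [GX, EXA_g_zero h]

/-- the functional -/
private noncomputable def EXA_psi (F : ℕ) [NeZero F] {V : Type} [AddCommGroup V] [Module ℝ V]
    (Ψ : DirichletCharacter ℂ F → V →ₗ[ℝ] ℝ) (T0 : ℝ) : (DirichletCharacter ℂ F → V) →ₗ[ℝ] ℝ where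
  toFun v := ∑ χ, Ψ χ (v χ) * T0
  map_add' v w := by
    simp only [Pi.add_apply, map_add, add_mul]
    exact Finset.sum_add_distrib
  map_smul' c v := by
    simp only [Pi.smul_apply, map_smul, smul_eq_mul, RingHom.id_apply]
    rw [Finset.mul_sum]
    exact Finset.sum_congr rfl fun χ _ => by ring

private theorem EXA_psi_apply (F : ℕ) [NeZero F] {V : Type} [AddCommGroup V] [Module ℝ V]
    (Ψ : DirichletCharacter ℂ F → V →ₗ[ℝ] ℝ) (T0 : ℝ) (v : DirichletCharacter ℂ F → V) :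
    EXA_psi F Ψ T0 v = ∑ χ, Ψ χ (v χ) * T0 := rfl

open Classical in
private theorem EXA_psi_single (F : ℕ) [NeZero F] {V : Type} [AddCommGroup V] [Module ℝ V]
    (Ψ : DirichletCharacter ℂ F → V →ₗ[ℝ] ℝ) (T0 : ℝ) (χ : DirichletCharacter ℂ F) (v : V) :
    EXA_psi F Ψ T0 (Pi.single χ v) = Ψ χ v * T0 := by
  rw [EXA_psi_apply, Finset.sum_eq_single χ]
  · rw [Pi.single_eq_same]
  · intro χ' _ h
    rw [Pi.single_eq_of_ne h]
    simp
  · intro h
    exact absurd (Finset.mem_univ χ) h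

open Classical in
private theorem EXA_TX_single {n F : ℕ} [NeZero F] {V : Type} [AddCommGroup V] [Module ℝ V]
    {g : DirichletCharacter ℂ F → ℕ → V → ℝ → ℂ} {C₁ : ℝ} (hg : ∀ χ, TSC n V (g χ) C₁)
    (ω : DirichletCharacter ℂ F → ℂ)
    (a : DirichletCharacter ℂ F → ℕ → ℂ) (q : ℝ) (χ : DirichletCharacter ℂ F) (v : V) (e : ℕ) :
    TX (n := n) g ω a q (Pi.single χ v) e = if e = 0 then 0 else
      ω χ * prm χ e * GX (g χ) (a χ) 0 v (e / √(q * (χ.conductor : ℝ) ^ n)) := by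
  unfold TX
  split_ifs with h
  · rfl
  · rw [Finset.sum_eq_single χ]
    · rw [Pi.single_eq_same]
    · intro χ' _ h'
      rw [Pi.single_eq_of_ne h', EXA_GX_zero (hg χ'), mul_zero]
    · intro h'
      exact absurd (Finset.mem_univ χ) h'

/-- `C * L^2 * q^(-1/10) ≤ c` for large `q` -/
private theorem EXA_large (C c : ℝ) (hc : 0 < c) : ∃ q₀ : ℝ, 1 < q₀ ∧ ∀ q : ℝ, q₀ ≤ q →
    C * (q ^ (-(1 / 10) : ℝ) * Real.log q ^ 2) ≤ c := by
  have h1 : Filter.Tendsto (fun q : ℝ => C * (q ^ (-(1 / 10) : ℝ) * Real.log q ^ 2)) Filter.atTop (nhds (C * 0)) := by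
    apply Filter.Tendsto.const_mul
    have h2 := (isLittleO_log_rpow_rpow_atTop (2 : ℝ) (s := 1 / 10) (by norm_num)).tendsto_div_nhds_zero
    refine h2.congr' ?_
    filter_upwards [Filter.eventually_gt_atTop (1 : ℝ)] with q hq
    rw [Real.rpow_neg (by linarith), div_eq_mul_inv, mul_comm]
    congr 1
    exact_mod_cast Real.rpow_natCast (Real.log q) 2
  rw [mul_zero] at h1
  have h3 := (h1.eventually (eventually_le_nhds hc)).and (Filter.eventually_gt_atTop (1 : ℝ))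
  obtain ⟨q₀, h4⟩ := Filter.eventually_atTop.mp h3
  exact ⟨q₀, (h4 q₀ le_rfl).2, fun q hq => (h4 q hq).1⟩

theorem EXA (hNWA : NWA_stmt) (zNIT : Pool.Agent.ZT.NIT_stmt) (zETF : Pool.Agent.ZT.ETF_stmt)
    (zCEN : Pool.Agent.ZT.CEN_stmt) (zCNV : Pool.Agent.ZT.CNV_stmt) (zPRS : Pool.Agent.ZT.PRS_stmt)
    (zLTW : Pool.Agent.ZT.LTW_stmt) (zCMD : Pool.Agent.ZT.CMD_stmt) : EXA_stmt := by
  classical
  intro n F _ V _ _ g C₁ Ψ ω α κ₀ N₀ hn hg hΨ hω hα hκ₀ hP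
  have hF : F ≠ 0 := NeZero.ne F
  have χ₀ : DirichletCharacter ℂ F := 1
  have hC₁ : 0 < C₁ := (hg χ₀).pos
  obtain ⟨κ, N₁, SA, SB, S, u, c, hprs, hc, hcS⟩ := zPRS n F α κ₀ N₀ hκ₀ hP
  obtain ⟨s, hs, C₀, hcen⟩ := zCEN n F α c hF hα hc
  obtain ⟨x₁, C, δ, c₂, hx₁, hx₁', hC, hc₂, hN⟩ :=
    hNWA n F V g C₁ ω α κ C₀ N₁ SA SB S u c hn hg hω hα hprs hc hcS
  obtain ⟨q₁, hq₁, hN⟩ := hN c₂ hc₂ le_rfl
  set φ : ℝ := (Fintype.card (DirichletCharacter ℂ F) : ℝ) with hφ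
  have hφ0 : 0 < φ := by
    rw [hφ]
    have : 0 < Fintype.card (DirichletCharacter ℂ F) := Fintype.card_pos_iff.mpr ⟨χ₀⟩
    exact_mod_cast this
  set c₃ : ℝ := c₂ / (4 * C ^ 2 * φ * C₁) with hc₃
  have hc₃0 : 0 < c₃ := by positivity
  obtain ⟨q₂, hq₂, hlarge⟩ := EXA_large (4 * C) c₂ hc₂
  refine ⟨c₃, max (max q₁ q₂) (Real.exp 1), hc₃0,
    lt_of_lt_of_le hq₁ ((le_max_left _ _).trans (le_max_left _ _)), fun q hq => ?_⟩
  have hqq₁ : q₁ ≤ q := ((le_max_left _ _).trans (le_max_left _ _)).trans hq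
  have hqq₂ : q₂ ≤ q := ((le_max_right _ _).trans (le_max_left _ _)).trans hq
  have hqe : Real.exp 1 ≤ q := (le_max_right _ _).trans hq
  have hq1 : 1 < q := lt_of_lt_of_le hq₁ hqq₁
  have hlog : 0 < Real.log q := Real.log_pos hq1
  have hlog1 : 1 ≤ Real.log q := by
    rw [Real.le_log_iff_exp_le (by linarith)]
    exact hqe
  have hsq : 0 < √q := Real.sqrt_pos.mpr (by linarith)
  set ε₀ : ℕ → ℂ := fun p => c p * s p with hε₀
  have hε₀n : ∀ p, ‖ε₀ p‖ = 1 := by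
    intro p
    rw [hε₀]
    show ‖c p * s p‖ = 1
    rw [norm_mul, hc p, one_mul]
    rcases hs p with h | h <;> rw [h] <;> simp
  set a : DirichletCharacter ℂ F → ℕ → ℂ := fun χ m => lamA α ε₀ m * prm χ m with ha
  set b : DirichletCharacter ℂ F → ℕ → ℂ := fun χ m => muA α ε₀ m * prm χ m with hb
  obtain ⟨T, hT, hNwD, hT1, hTτ⟩ := hN q hqq₁ a b s (fun χ => hcen χ) hs
  set w : ℕ → ℝ := wt S x₁ q with hw
  set z : ℕ → ℂ := fun p => if p.Prime then c p * s p * ∑ j, α p j else 0 with hz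
  have hη0 := zETF n α ε₀ w (by omega) hα hε₀n hNwD.w0
  have hη : Eta (4 * n) w z (fun θ m => Pool.Agent.ZT.eta α ε₀ (fun p => ε₀ p * Complex.exp (I * (θ p : ℂ))) m) :=
    { zero := hη0.zero
      one := hη0.one
      prime := by
        intro θ p hp
        have h1 := hη0.prime θ p hp
        rw [h1, hz]
        simp only [if_pos hp, hε₀]
      bd := hη0.bd
      lip := hη0.lip }
  set T0 : ℝ := c₃ * √q / Real.log q ^ (n + 2) with hT0
  have hT00 : 0 ≤ T0 := by positivity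
  set r₀ : ℝ := φ * (C₁ * C) * c₃ / Real.log q ^ 2 + q ^ (-(1 / 10) : ℝ) with hr₀
  have hr₀0 : 0 ≤ r₀ := by positivity
  have hNn : ∀ v, 0 ≤ TM (n := n) g a x₁ q v := hNwD.n0
  have hres : ∀ v, |EXA_psi F Ψ T0 v - (T v 1).re| ≤ r₀ * TM (n := n) g a x₁ q v := by
    intro v
    have h1 : |EXA_psi F Ψ T0 v| ≤ φ * (C₁ * C) * c₃ / Real.log q ^ 2 * TM (n := n) g a x₁ q v := by
      rw [EXA_psi_apply]
      refine (Finset.abs_sum_le_sum_abs _ _).trans ?_
      have h2 : ∀ χ ∈ (Finset.univ : Finset (DirichletCharacter ℂ F)), |Ψ χ (v χ) * T0| ≤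
          C₁ * C * c₃ / Real.log q ^ 2 * TM (n := n) g a x₁ q v := by
        intro χ _
        have h3' := hTτ v χ
        have h3 : |Ψ χ (v χ)| * √q ≤ C₁ * C * Real.log q ^ n * TM (n := n) g a x₁ q v := by
          have h31 := hΨ χ (Real.log q) (v χ) hlog1
          calc |Ψ χ (v χ)| * √q ≤ C₁ * MX n (Real.log q) (g χ 0 (v χ)) * √q :=
                mul_le_mul_of_nonneg_right h31 hsq.le
            _ = C₁ * (MX n (Real.log q) (g χ 0 (v χ)) * √q) := by ring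
            _ ≤ C₁ * (C * Real.log q ^ n * TM (n := n) g a x₁ q v) :=
                mul_le_mul_of_nonneg_left h3' hC₁.le
            _ = _ := by ring
        rw [abs_mul, abs_of_nonneg hT00]
        calc |Ψ χ (v χ)| * T0 = (|Ψ χ (v χ)| * √q) * (c₃ / Real.log q ^ (n + 2)) := by rw [hT0]; ring
          _ ≤ (C₁ * C * Real.log q ^ n * TM (n := n) g a x₁ q v) * (c₃ / Real.log q ^ (n + 2)) :=
              mul_le_mul_of_nonneg_right h3 (by positivity)
          _ = C₁ * C * c₃ / Real.log q ^ 2 * TM (n := n) g a x₁ q v := by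
              rw [pow_add]
              field_simp
      refine (Finset.sum_le_sum h2).trans (le_of_eq ?_)
      rw [Finset.sum_const, Finset.card_univ, nsmul_eq_mul, ← hφ]
      ring
    have h4 : |(T v 1).re| ≤ q ^ (-(1 / 10) : ℝ) * TM (n := n) g a x₁ q v :=
      (Complex.abs_re_le_norm _).trans (hT1 v)
    calc |EXA_psi F Ψ T0 v - (T v 1).re| ≤ |EXA_psi F Ψ T0 v| + |(T v 1).re| := abs_sub _ _
      _ ≤ _ := add_le_add h1 h4
      _ = r₀ * TM (n := n) g a x₁ q v := by rw [hr₀]; ring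
  have hr₀E : 2 * C * r₀ ≤ c₂ / Real.log q ^ 2 := by
    have h5 := hlarge q hqq₂
    have h6 : 2 * C * (φ * (C₁ * C) * c₃ / Real.log q ^ 2) = c₂ / 2 / Real.log q ^ 2 := by
      rw [hc₃]
      field_simp
      ring
    have h7 : 2 * C * q ^ (-(1 / 10) : ℝ) ≤ c₂ / 2 / Real.log q ^ 2 := by
      rw [le_div_iff₀ (by positivity)]
      nlinarith
    have h8 : c₂ / Real.log q ^ 2 = c₂ / 2 / Real.log q ^ 2 + c₂ / 2 / Real.log q ^ 2 := by ring
    rw [hr₀, mul_add, h6, h8]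
    linarith
  obtain ⟨θ, -, hθ⟩ := zNIT (DirichletCharacter ℂ F → V) T (TM (n := n) g a x₁ q) w z (4 * n) C n δ
    (c₂ / Real.log q ^ 2) _ hNwD hη (EXA_psi F Ψ T0) r₀ hr₀0 hr₀E hres
  set ε : ℕ → ℂ := fun p => ε₀ p * Complex.exp (I * (θ p : ℂ)) with hε
  have hεn : ∀ p, ‖ε p‖ = 1 := by
    intro p
    show ‖ε₀ p * Complex.exp (I * (θ p : ℂ))‖ = 1
    rw [norm_mul, hε₀n, one_mul, mul_comm I]
    exact Complex.norm_exp_ofReal_mul_I _
  refine ⟨ε, hεn, fun χ v => ?_⟩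
  obtain ⟨-, hsum⟩ := hθ (Pi.single χ v)
  rw [EXA_psi_single] at hsum
  rw [← hsum]
  congr 1
  set Q : ℝ := q * (χ.conductor : ℝ) ^ n with hQ
  have hQ0 : 0 < Q := by
    have : χ.conductor ≠ 0 := χ.conductor_ne_zero
    positivity
  have hsQ : 0 < √Q := Real.sqrt_pos.mpr hQ0
  have hx : 0 < 1 / √Q := by positivity
  obtain ⟨-, hcnv⟩ := zCNV n F α ε₀ ε χ (fun y => g χ 0 v y) (1 / √Q) hF hx hα hε₀n hεn
    (fun σ hσ => (hg χ).dec 0 v σ (by linarith))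
  have hlam : ∀ m : ℕ, lamA α (fun p => ε p * prm χ p) m = lamA α ε m * prm χ m := by
    intro m
    rcases Nat.eq_zero_or_pos m with h | h
    · subst h
      simp
    · have h1 := (zLTW n α (prm χ) ε).1 m
      have h2 : (fun p => prm χ p * ε p) = (fun p => ε p * prm χ p) := by
        funext p
        ring
      rw [h2] at h1
      rw [h1, ← (zCMD F χ hF).2.2.2.1 m h.ne', mul_comm]
  have hL : ∑' m : ℕ, ω χ * lamA α (fun p => ε p * prm χ p) m * g χ 0 v (m / √Q) =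
      ω χ * ∑' m : ℕ, lamA α ε m * prm χ m * g χ 0 v (m * (1 / √Q)) := by
    rw [← tsum_mul_left]
    apply tsum_congr
    intro m
    rw [hlam m, div_eq_mul_one_div]
    ring
  rw [hL, hcnv, ← tsum_mul_left]
  apply tsum_congr
  intro e
  rw [hT, EXA_TX_single hg]
  split_ifs with he
  · ring
  · have h3 : GX (g χ) (a χ) 0 v (e / √Q) =
        ∑' d : ℕ, lamA α ε₀ d * prm χ d * g χ 0 v (d * (e * (1 / √Q))) := by
      unfold GX
      apply tsum_congr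
      intro d
      rw [div_eq_mul_one_div (e : ℝ)]
    rw [← hQ, h3]
    ring

end Pool.Agent.TA
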